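import Mathlib
import Pool.Agent.V11205.TwoBridge

/-! # Concave-then-convex Alexander coefficients of two-bridge knots

For every two-bridge knot, with Alexander polynomial
`a₀ - a₁ (t + t⁻¹) + ⋯ + (-1)ⁿ aₙ (tⁿ + t⁻ⁿ)`, the sequence `a₀, …, aₙ` is concave up to some `k`
and convex from `k` on. -/

set_option autoImplicit false

namespace Pool.Agent.Results.MP_7cfe9c_gt.ConcaveConvex

open Polynomial Pool.Agent.V11205.TwoBridge

/-- `(x_p, …, x_q)` is convex -/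
def ConvexSeq (x : ℕ → ℤ) (p q : ℕ) : Prop :=
  ∀ i, p + 1 ≤ i → i + 1 ≤ q → x (i - 1) + x (i + 1) ≥ 2 * x i

/-- `(x_p, …, x_q)` is concave -/
def ConcaveSeq (x : ℕ → ℤ) (p q : ℕ) : Prop :=
  ∀ i, p + 1 ≤ i → i + 1 ≤ q → x (i - 1) + x (i + 1) ≤ 2 * x i

theorem result (n : ℕ) (b : Fin (2 * n) → ℤ) (hb : ∀ i, b i ≠ 0) :
    ∃ (a : ℕ → ℤ) (ε : ℤ), (ε = 1 ∨ ε = -1) ∧ (∀ j ≤ n, 0 < a j) ∧
      (alexander (seifertMatrix b)).natDegree = 2 * n ∧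
      (∀ j ≤ n, (alexander (seifertMatrix b)).coeff (n + j) = ε * (-1) ^ j * a j ∧
        (alexander (seifertMatrix b)).coeff (n - j) = ε * (-1) ^ j * a j) ∧
      ∃ k ≤ n, ConcaveSeq a 0 k ∧ ConvexSeq a k n := by
  obtain ⟨a, ε, h1, h2, h3, h4, k, hk, h5, h6⟩ := Pool.Agent.V11205.TwoBridge.main n b hb
  exact ⟨a, ε, h1, h2, h3, h4, k, hk, fun i hi1 hi2 => h5 i (by omega) (by omega),
    fun i hi1 hi2 => h6 i (by omega) (by omega)⟩

end Pool.Agent.Results.MP_7cfe9c_gt.ConcaveConvex
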