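import Mathlib
import Pool.Agent.V11205.ConwayFib

/-! # The trapezoidal conjecture for Conway polynomials of two-bridge links

The Conway polynomial of every two-bridge link, written in the basis of Fibonacci polynomials,
has trapezoidal (indeed log-concave) coefficients. -/

set_option autoImplicit false

namespace Pool.Agent.Results.MP_7cfe9c_gt.FibonacciTrapezoid

open Polynomial Pool.Agent.V11205.TwoBridge

theorem result (m : ℕ) (b : Fin m → ℤ) (hb : ∀ i, b i ≠ 0) :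
    ∃ α : ℕ → ℚ, α 0 = 1 ∧
      IsConway (seifertMatrix b) (C (∏ i, (b i : ℚ)) *
        ∑ i ∈ Finset.range (m / 2 + 1), C ((-1) ^ i * α i) * fibPoly (m + 1 - 2 * i)) ∧
      (∀ i ≤ m / 2, 0 ≤ α i) ∧
      (∀ i, 1 ≤ i → i + 1 ≤ m / 2 → α (i - 1) * α (i + 1) ≤ α i ^ 2) ∧
      ∃ n ≤ m / 2, (∀ i, i + 1 ≤ n → α i ≤ α (i + 1)) ∧
        (∀ i, n ≤ i → i + 1 ≤ m / 2 → α (i + 1) ≤ α i) :=
  conway_main m b hb

end Pool.Agent.Results.MP_7cfe9c_gt.FibonacciTrapezoid
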