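import Mathlib
import Pool.Agent.V11205.TwoBridge

/-! # The literal wording fails

The two-bridge knot with Seifert matrix `V` (the number `2` on the diagonal, `1` just above it,
size `6`) has Alexander coefficients `(a₀, a₁, a₂, a₃) = (847, 664, 304, 64)`; its second
differences are `-177` at `1` and `120` at `2`. -/

set_option autoImplicit false

namespace Pool.Agent.Results.MP_7cfe9c_gt.LiteralFails

open Polynomial Pool.Agent.V11205.TwoBridge

/-- `(x_p, …, x_q)` is convex -/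
def ConvexSeq (x : ℕ → ℤ) (p q : ℕ) : Prop :=
  ∀ i, p + 1 ≤ i → i + 1 ≤ q → x (i - 1) + x (i + 1) ≥ 2 * x i

/-- `(x_p, …, x_q)` is concave -/
def ConcaveSeq (x : ℕ → ℤ) (p q : ℕ) : Prop :=
  ∀ i, p + 1 ≤ i → i + 1 ≤ q → x (i - 1) + x (i + 1) ≤ 2 * x i

theorem det_six : (mat (fun _ : Fin 6 => (2 : ℤ))).det =
    C 64 * X ^ 6 + C (-304) * X ^ 5 + C 664 * X ^ 4 + C (-847) * X ^ 3 + C 664 * X ^ 2 +
      C (-304) * X + C 64 := by
  have h0 : (mat (fun _ : Fin 0 => (2 : ℤ))).det = 1 := det_mat_zero _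
  have h1 : (mat (fun _ : Fin 1 => (2 : ℤ))).det = C 2 * (1 - X) := det_mat_one _
  have hs : ∀ m : ℕ, (mat (fun _ : Fin (m + 2) => (2 : ℤ))).det =
      C 2 * (1 - X) * (mat (fun _ : Fin (m + 1) => (2 : ℤ))).det +
        X * (mat (fun _ : Fin m => (2 : ℤ))).det := fun m => det_mat_succ _
  rw [hs 4, hs 3, hs 2, hs 1, hs 0, h1, h0]
  have hC : ∀ z : ℤ, (C z : ℤ[X]) = (z : ℤ[X]) := fun z => by simp
  simp only [hC]
  push_cast
  ring

theorem result :
    ∃ (n : ℕ) (b : Fin (2 * n) → ℤ), (∀ i, b i ≠ 0) ∧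
      ∃ (a : ℕ → ℤ) (ε : ℤ), (ε = 1 ∨ ε = -1) ∧ (∀ j ≤ n, 0 < a j) ∧
        (alexander (seifertMatrix b)).natDegree = 2 * n ∧
        (∀ j ≤ n, (alexander (seifertMatrix b)).coeff (n + j) = ε * (-1) ^ j * a j ∧
          (alexander (seifertMatrix b)).coeff (n - j) = ε * (-1) ^ j * a j) ∧
        ∀ k ≤ n, ¬ ConvexSeq a 0 k ∨ ¬ ConcaveSeq a k n := by
  obtain ⟨a, ε, h1, h2, h3, h4, -⟩ := Pool.Agent.V11205.TwoBridge.main 3 (fun _ => 2)
    (fun _ => by norm_num)
  refine ⟨3, fun _ => 2, fun _ => by norm_num, a, ε, h1, h2, h3, h4, ?_⟩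
  have hp : (alexander (seifertMatrix (fun _ : Fin (2 * 3) => (2 : ℤ)))) =
      C 64 * X ^ 6 + C (-304) * X ^ 5 + C 664 * X ^ 4 + C (-847) * X ^ 3 + C 664 * X ^ 2 +
      C (-304) * X + C 64 := by
    rw [alexander_eq]; exact det_six
  rw [hp] at h4
  have c3 := (h4 0 (by norm_num)).1
  have c4 := (h4 1 (by norm_num)).1
  have c5 := (h4 2 (by norm_num)).1
  have c6 := (h4 3 (by norm_num)).1
  simp only [coeff_add, coeff_C_mul, coeff_X_pow, coeff_X, coeff_C] at c3 c4 c5 c6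
  norm_num at c3 c4 c5 c6
  have p0 := h2 0 (by norm_num)
  have p3 := h2 3 (by norm_num)
  intro k hk
  by_contra hcon
  push Not at hcon
  obtain ⟨hA, hB⟩ := hcon
  rcases h1 with rfl | rfl
  · linarith
  · have q0 : a 0 = 847 := by linarith
    have q1 : a 1 = 664 := by linarith
    have q2 : a 2 = 304 := by linarith
    have q3 : a 3 = 64 := by linarith
    rcases le_or_gt k 1 with hk1 | hk1
    · have := hB 2 (by omega) (by omega)
      norm_num [q1, q2, q3] at this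
    · have := hA 1 (by omega) (by omega)
      norm_num [q0, q1, q2] at this

end Pool.Agent.Results.MP_7cfe9c_gt.LiteralFails
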